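import Pool.Agent.Helper48.Lang.Goals

/-!
# MP_c7dfba_nt, packet DEG: the values of the derivative
-/

set_option autoImplicit false

namespace Pool.Agent.Helper49.Lang

open MvPolynomial Pool.Agent.Helper48.Lang

universe u v

theorem prod_mem_pow {R : Type v} {K : Type u} [Field R] [Field K] [Algebra R K] {n : ℕ}
    (W : Submodule R K) (x : Fin n → K) (hx : ∀ p, x p ∈ W) (ν : Fin n → ℕ)
    (s : Finset (Fin n)) : ∏ i ∈ s, x i ^ ν i ∈ W ^ (∑ i ∈ s, ν i) := by
  classical
  induction s using Finset.induction_on with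
  | empty =>
    rw [Finset.prod_empty, Finset.sum_empty, pow_zero]
    exact Submodule.one_le.mp le_rfl
  | insert a s ha ih =>
    rw [Finset.prod_insert ha, Finset.sum_insert ha, pow_add]
    exact Submodule.mul_mem_mul (Submodule.pow_mem_pow W (hx a) _) ih

theorem c_deg : S_DEG.{u, v} := by
  intro R K _ _ _ n D m f hD hf E hE x y hx hy
  classical
  unfold D1
  refine Submodule.sum_mem _ fun p _ => ?_
  have h1 : eval x (pderiv p f) = ∑ μ ∈ f.support,
      eval x (pderiv p (monomial μ (coeff μ f))) := by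
    conv_lhs => rw [f.as_sum]
    rw [map_sum, map_sum]
  rw [h1, Finset.sum_mul]
  refine Submodule.sum_mem _ fun μ hμ => ?_
  rw [pderiv_monomial, eval_monomial]
  by_cases h2 : μ p = 0
  · rw [h2, Nat.cast_zero, mul_zero, zero_mul, zero_mul]
    exact Submodule.zero_mem _
  · have h3 : ∑ i, μ i = D := by
      have h4 := hf (mem_support_iff.mp hμ)
      rw [← h4, Finsupp.weight_apply, Finsupp.sum_fintype _ _ (fun i => by simp)]
      simp
    have h5 : ∑ i, (μ - Finsupp.single p 1 : Fin n →₀ ℕ) i + 1 = D := by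
      rw [← h3, ← Finset.add_sum_erase _ _ (Finset.mem_univ p),
        ← Finset.add_sum_erase Finset.univ (fun i => μ i) (Finset.mem_univ p)]
      have h6 : ∑ i ∈ Finset.univ.erase p, (μ - Finsupp.single p 1 : Fin n →₀ ℕ) i =
          ∑ i ∈ Finset.univ.erase p, μ i := by
        refine Finset.sum_congr rfl fun i hi => ?_
        rw [Finsupp.tsub_apply, Finsupp.single_eq_of_ne (Finset.ne_of_mem_erase hi), tsub_zero]
      rw [h6, Finsupp.tsub_apply, Finsupp.single_eq_same]
      omega
    rw [Finsupp.prod_fintype _ _ (fun i => pow_zero _)]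
    have h7 := prod_mem_pow (E ^ (m + 1)) x hx (fun i => (μ - Finsupp.single p 1 : Fin n →₀ ℕ) i) Finset.univ
    have h8 : coeff μ f * ((μ p : ℕ) : K) ∈ E := by
      have h9 : coeff μ f * ((μ p : ℕ) : K) = (μ p) • coeff μ f := by
        rw [nsmul_eq_mul, mul_comm]
      rw [h9]
      exact Submodule.smul_of_tower_mem E _ (hE μ)
    have h10 := Submodule.mul_mem_mul (Submodule.mul_mem_mul h8 h7) (hy p)
    rw [← pow_mul] at h10
    have h11 : E * E ^ ((m + 1) * ∑ i, (μ - Finsupp.single p 1 : Fin n →₀ ℕ) i) * E ^ m =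
        E ^ (D * (m + 1)) := by
      rw [← pow_succ', ← pow_add]
      congr 1
      rw [← h5]
      ring
    rw [h11] at h10
    exact h10

end Pool.Agent.Helper49.Lang
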